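import Pool.Agent.MP_cab9bb_co.Sb.PA
import Pool.Agent.MP_cab9bb_co.Sb.PB

set_option autoImplicit false

open Pool.Agent.MP_cab9bb_co.Sb

/-- Stability form of the inequality between the covering density and the finite covering
densities of a centrally symmetric planar convex body. -/
theorem Pool.Agent.Results.MP_cab9bb_co.Stability.result
    (K : Set (EuclideanSpace ℝ (Fin 2))) (hK : Body K) (hs : Sym K) :
    ∃ H P : ℝ, IsH K H ∧ IsP K P ∧ ∀ k : ℕ, 2 ≤ k →
      dens K ≤ ENNReal.ofReal (1 - 2 * (H - P) ^ 2 / (k * H * P)) * fdens k K := by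
  obtain ⟨H, P, hH, hP, -, -, -, -, h⟩ :=
    (main_Fin (sArea (sFin (sJ2 sCap) sAQ sM5 sFour (sTwo sAQ))) sLat sLow sOct).1 K hK hs
  exact ⟨H, P, hH, hP, h⟩
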