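import Pool.Agent.MP_cab9bb_co.Sb.PA
import Pool.Agent.MP_cab9bb_co.Sb.PB

set_option autoImplicit false

open Pool.Agent.MP_cab9bb_co.Sb

/-- For every admissible ratio of `H` and `P` a symmetric body with an exact relation between the
covering density and the covering density of two translates. -/
theorem Pool.Agent.Results.MP_cab9bb_co.TwoExact.result (ρ : ℝ) (h1 : 1 ≤ ρ) (h2 : ρ ≤ 3 / 2) :
    ∃ (K : Set (EuclideanSpace ℝ (Fin 2))) (H P : ℝ),
      Body K ∧ Sym K ∧ IsH K H ∧ IsP K P ∧ H = ρ * P ∧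
      dens K = ENNReal.ofReal (1 - 2 * (H - P) ^ 2 / (2 * H * P)) * fdens 2 K :=
  (main_Fin (sArea (sFin (sJ2 sCap) sAQ sM5 sFour (sTwo sAQ))) sLat sLow sOct).2 ρ h1 h2
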